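import Pool.Agent.W842.KF.Stm

set_option autoImplicit false

namespace Pool.Agent.W52.KF

open Pool.Agent.W842.KF

theorem t_rec : S_REC := by
  intro A t g hA ht h0 hrec m
  have hs : (1.4142 : ℝ) ≤ √2 := by
    apply Real.le_sqrt_of_sq_le
    norm_num
  have hs0 : 0 < √2 := by linarith
  have key : ∀ m : ℕ, 0 ≤ g m ∧ g m ≤ √A / √2 ^ m + 3.42 * t := by
    intro m
    induction m with
    | zero =>
      rw [h0, pow_zero, div_one]
      refine ⟨Real.sqrt_nonneg _, ?_⟩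
      nlinarith
    | succ m ih =>
      rw [hrec]
      constructor
      · have := div_nonneg ih.1 hs0.le
        linarith
      · have h1 : g m / √2 ≤ (√A / √2 ^ m + 3.42 * t) / √2 := div_le_div_of_nonneg_right ih.2 hs0.le
        have h2 : (√A / √2 ^ m + 3.42 * t) / √2 = √A / √2 ^ (m + 1) + 3.42 * t / √2 := by
          rw [add_div, div_div, pow_succ]
        have h3 : 3.42 * t / √2 ≤ 2.42 * t := by
          rw [div_le_iff₀ hs0]
          nlinarith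
        linarith
  obtain ⟨h1, h2⟩ := key m
  refine ⟨h1, ?_⟩
  have h3 : 0 ≤ √A / √2 ^ m := by positivity
  have h4 : (√A / √2 ^ m) ^ 2 = A / 2 ^ m := by
    rw [div_pow, Real.sq_sqrt hA, ← pow_mul, mul_comm m 2, pow_mul, Real.sq_sqrt (by norm_num)]
  have h5 : (g m) ^ 2 ≤ (√A / √2 ^ m + 3.42 * t) ^ 2 := pow_le_pow_left₀ h1 h2 2
  have h6 : (√A / √2 ^ m + 3.42 * t) ^ 2 ≤ 2 * (√A / √2 ^ m) ^ 2 + 2 * (3.42 * t) ^ 2 := by
    nlinarith [sq_nonneg (√A / √2 ^ m - 3.42 * t)]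
  rw [h4] at h6
  have h7 : 2 * (3.42 * t) ^ 2 ≤ 24 * t ^ 2 := by
    nlinarith [sq_nonneg t]
  calc (g m) ^ 2 ≤ 2 * (A / 2 ^ m) + 2 * (3.42 * t) ^ 2 := h5.trans h6
    _ ≤ 2 * A / 2 ^ m + 24 * t ^ 2 := by
      rw [mul_div_assoc]
      linarith

end Pool.Agent.W52.KF
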